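import Pool.Agent.H924P.Mean

set_option autoImplicit false

/-!
# Asymptotic bounds for the mean width and the mean area
-/

namespace Pool.Agent.H924P

open Finset Filter Topology
open H981 (IsSAW C mu cr' PP)

lemma card_loops (n : ℕ) :
    (Nat.card {f : ZMod (2 * (n + 1)) → ℤ × ℤ // IsLoop (2 * (n + 1)) f} : ℝ) =
      4 * ((n + 1 : ℕ) : ℝ) * PP (n + 1) := by
  unfold PP
  have h : (0 : ℝ) < ((n + 1 : ℕ) : ℝ) := by positivity
  have e : (Nat.card {f : ZMod (2 * (n + 1)) → ℤ × ℤ // IsLoop (2 * (n + 1)) f} : ℝ) =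
    (Nat.card {f : ZMod (2 * (n + 1)) → ℤ × ℤ // H981.IsLoop (2 * (n + 1)) f} : ℝ) := rfl
  rw [e]
  field_simp

/-- the scale -/
noncomputable def X (c : ℝ) (n : ℕ) : ℝ := (n : ℝ) / Real.log n ^ c

lemma X_pos (c : ℝ) {n : ℕ} (hn : 2 ≤ n) : 0 < X c n := by
  unfold X
  have h1 : (1 : ℝ) < n := by exact_mod_cast (by omega : 1 < n)
  have h2 := Real.log_pos h1
  positivity

lemma eventually_one_le_X (c : ℝ) : ∀ᶠ n : ℕ in atTop, 1 ≤ X c n := by
  have h1 := isLittleO_log_rpow_rpow_atTop c (one_pos)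
  have h2 := (h1.def (c := 1) one_pos).filter_mono tendsto_natCast_atTop_atTop
  have h3 : ∀ᶠ n : ℕ in atTop, ‖Real.log (n : ℝ) ^ c‖ ≤ 1 * ‖(n : ℝ) ^ (1 : ℝ)‖ := by
    exact tendsto_natCast_atTop_atTop.eventually (h1.def (c := 1) one_pos)
  filter_upwards [h3, eventually_ge_atTop 2] with n hn hn2
  have h4 : (1 : ℝ) < n := by exact_mod_cast (by omega : 1 < n)
  have h5 := Real.log_pos h4
  rw [Real.rpow_one, one_mul, Real.norm_of_nonneg (Real.rpow_nonneg h5.le _),
    Real.norm_of_nonneg (by linarith)] at hn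
  unfold X
  rw [le_div_iff₀ (Real.rpow_pos_of_pos h5 _), one_mul]
  exact hn

/-- far loops are very rare -/
lemma ratio_small {c : ℝ} (h : SubBall c) :
    ∀ᶠ n : ℕ in atTop, (2 * (2 * ((n : ℝ) + 1))) ^ 2 *
      ((Nat.card {f : ZMod (2 * (n + 1)) → ℤ × ℤ // IsLoop (2 * (n + 1)) f ∧
          FarL _ f (X c (2 * n + 1))} : ℝ) /
        (Nat.card {f : ZMod (2 * (n + 1)) → ℤ × ℤ // IsLoop (2 * (n + 1)) f} : ℝ)) ≤ 1 := by
  obtain ⟨K1, hK1, h1⟩ := H981.cr'_upper9
  obtain ⟨K2, hK2, h2⟩ := H981.PP_bounds9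
  have hmu := H981.mu_pos
  -- the real variable `x = √N`
  have hx : Tendsto (fun n : ℕ => Real.sqrt ((2 * n + 1 : ℕ) : ℝ)) atTop atTop := by
    apply Real.tendsto_sqrt_atTop.comp
    apply tendsto_natCast_atTop_atTop.comp
    exact tendsto_atTop_mono (fun n => by omega : ∀ n : ℕ, n ≤ 2 * n + 1) tendsto_id
  have hlog : ∀ᶠ x : ℝ in atTop, (K1 + K2) * (2 * Real.log x) ^ 9 ≤ x / 2 := by
    have h3 := Real.isLittleO_pow_log_id_atTop (n := 9)
    have hd : (0 : ℝ) < 1 / (2 * ((K1 + K2 + 1) * 2 ^ 9)) := by positivity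
    filter_upwards [h3.def hd, eventually_ge_atTop 1] with x hx hx1
    have h4 := Real.log_nonneg hx1
    rw [Real.norm_of_nonneg (by positivity), id, Real.norm_of_nonneg (by linarith)] at hx
    have h5 : (K1 + K2 + 1) * 2 ^ 9 * Real.log x ^ 9 ≤ x / 2 := by
      calc (K1 + K2 + 1) * 2 ^ 9 * Real.log x ^ 9 ≤
          (K1 + K2 + 1) * 2 ^ 9 * (1 / (2 * ((K1 + K2 + 1) * 2 ^ 9)) * x) :=
            mul_le_mul_of_nonneg_left hx (by positivity)
        _ = x / 2 := by field_simp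
    have h6 : (K1 + K2) * (2 * Real.log x) ^ 9 ≤ (K1 + K2 + 1) * 2 ^ 9 * Real.log x ^ 9 := by
      rw [mul_pow]
      have : 0 ≤ (2 : ℝ) ^ 9 * Real.log x ^ 9 := by positivity
      nlinarith
    exact h6.trans h5
  have hexp : ∀ᶠ x : ℝ in atTop, 64 / mu * (x ^ 4 * Real.exp (-(x / 2))) ≤ 1 := by
    have h3 := Real.tendsto_pow_mul_exp_neg_atTop_nhds_zero 4
    have h4 : Tendsto (fun x : ℝ => x / 2) atTop atTop :=
      tendsto_id.atTop_div_const (by norm_num)
    have h5 := (h3.comp h4).const_mul (64 / mu * 2 ^ 4)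
    rw [mul_zero] at h5
    filter_upwards [h5.eventually (gt_mem_nhds one_pos)] with x hx
    have : 64 / mu * 2 ^ 4 * ((fun x : ℝ => x ^ 4 * Real.exp (-x)) ∘ fun x => x / 2) x =
        64 / mu * (x ^ 4 * Real.exp (-(x / 2))) := by
      simp only [Function.comp]
      ring
    rw [this] at hx
    exact hx.le
  have hN : Tendsto (fun n : ℕ => 2 * n + 1) atTop atTop :=
    tendsto_atTop_mono (fun n => by omega : ∀ n : ℕ, n ≤ 2 * n + 1) tendsto_id
  filter_upwards [hN.eventually h, hx.eventually hlog, hx.eventually hexp,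
    eventually_ge_atTop 1] with n hn1 hn2 hn3 hn4
  set N := 2 * n + 1 with hNdef
  set x := Real.sqrt (N : ℝ) with hxdef
  have hNpos : (0 : ℝ) < N := by
    have : 0 < N := by omega
    exact_mod_cast this
  have hxsq : x ^ 2 = N := Real.sq_sqrt hNpos.le
  have hx0 : 0 < x := Real.sqrt_pos.2 hNpos
  have hlogx : Real.log N = 2 * Real.log x := by
    rw [← hxsq, Real.log_pow]
    norm_num
  have hN1 : (1 : ℝ) ≤ N := by exact_mod_cast (by omega : 1 ≤ N)
  -- numerator
  have hnum : (Nat.card {f : ZMod (2 * (n + 1)) → ℤ × ℤ // IsLoop (2 * (n + 1)) f ∧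
          FarL _ f (X c N)} : ℝ) ≤ Real.exp (-x) * (mu ^ N * Real.exp (K1 * Real.log N ^ 9)) := by
    calc (Nat.card {f : ZMod (2 * (n + 1)) → ℤ × ℤ // IsLoop (2 * (n + 1)) f ∧
          FarL _ f (X c N)} : ℝ) ≤ (Nat.card {ω : Fin (2 * n + 1 + 1) → ℤ × ℤ //
            IsSAW (2 * n + 1) ω ∧ Far _ ω (X c N)} : ℝ) := by
            exact_mod_cast card_bad_le n (X c N)
      _ ≤ Real.exp (-Real.sqrt N) * C N := hn1
      _ ≤ Real.exp (-x) * (mu ^ N * Real.exp (K1 * Real.log N ^ 9)) := by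
          apply mul_le_mul_of_nonneg_left _ (Real.exp_pos _).le
          rw [← H981.cr'_eq]
          exact h1 N (by omega)
  -- denominator
  have hden : mu ^ (N + 1) * Real.exp (-(K2 * Real.log N ^ 9)) ≤
      (Nat.card {f : ZMod (2 * (n + 1)) → ℤ × ℤ // IsLoop (2 * (n + 1)) f} : ℝ) := by
    rw [card_loops]
    have h3 := (h2 (n + 1) (by omega)).1
    have h4 : 2 * (n + 1) = N + 1 := by omega
    rw [h4] at h3
    have h5 : Real.log ((n + 1 : ℕ) : ℝ) ≤ Real.log N := by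
      apply Real.log_le_log (by positivity)
      exact_mod_cast (by omega : n + 1 ≤ N)
    have h6 : 0 ≤ Real.log ((n + 1 : ℕ) : ℝ) := by
      apply Real.log_nonneg
      exact_mod_cast (by omega : 1 ≤ n + 1)
    have h7 : K2 * Real.log ((n + 1 : ℕ) : ℝ) ^ 9 ≤ K2 * Real.log N ^ 9 := by gcongr
    have h8 : mu ^ (N + 1) * Real.exp (-(K2 * Real.log N ^ 9)) ≤ PP (n + 1) := by
      refine le_trans ?_ h3
      apply mul_le_mul_of_nonneg_left _ (by positivity)
      apply Real.exp_le_exp.2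
      linarith
    have h9 : 0 ≤ PP (n + 1) := le_trans (by positivity) h8
    have h10 : (1 : ℝ) ≤ 4 * ((n + 1 : ℕ) : ℝ) := by
      push_cast
      have : (0 : ℝ) ≤ n := Nat.cast_nonneg _
      linarith
    nlinarith
  have hdpos : 0 < mu ^ (N + 1) * Real.exp (-(K2 * Real.log N ^ 9)) := by positivity
  have hM : (2 * (2 * ((n : ℝ) + 1))) ^ 2 ≤ 64 * x ^ 4 := by
    have e1 : (n : ℝ) + 1 ≤ N := by exact_mod_cast (by omega : n + 1 ≤ N)
    have e2 : x ^ 4 = (N : ℝ) ^ 2 := by rw [← hxsq]; ring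
    rw [e2]
    have e3 : (0 : ℝ) ≤ (n : ℝ) + 1 := by positivity
    nlinarith
  calc (2 * (2 * ((n : ℝ) + 1))) ^ 2 *
      ((Nat.card {f : ZMod (2 * (n + 1)) → ℤ × ℤ // IsLoop (2 * (n + 1)) f ∧
          FarL _ f (X c N)} : ℝ) /
        (Nat.card {f : ZMod (2 * (n + 1)) → ℤ × ℤ // IsLoop (2 * (n + 1)) f} : ℝ))
      ≤ 64 * x ^ 4 * ((Real.exp (-x) * (mu ^ N * Real.exp (K1 * Real.log N ^ 9))) /
          (mu ^ (N + 1) * Real.exp (-(K2 * Real.log N ^ 9)))) := by
        apply mul_le_mul hM _ (by positivity) (by positivity)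
        exact div_le_div₀ (by positivity) hnum hdpos hden
    _ = 64 / mu * (x ^ 4 * (Real.exp (-x) * (Real.exp (K1 * Real.log N ^ 9) *
          Real.exp (K2 * Real.log N ^ 9)))) := by
        rw [Real.exp_neg (K2 * Real.log N ^ 9), show mu ^ (N + 1) = mu ^ N * mu from pow_succ _ _]
        field_simp
    _ ≤ 64 / mu * (x ^ 4 * Real.exp (-(x / 2))) := by
        apply mul_le_mul_of_nonneg_left _ (by positivity)
        apply mul_le_mul_of_nonneg_left _ (by positivity)
        rw [← Real.exp_add, ← Real.exp_add]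
        apply Real.exp_le_exp.2
        rw [hlogx]
        linarith
    _ ≤ 1 := hn3

lemma loops_pos {n : ℕ} (hn : 1 ≤ n) :
    0 < (Nat.card {f : ZMod (2 * (n + 1)) → ℤ × ℤ // IsLoop (2 * (n + 1)) f} : ℝ) := by
  rw [card_loops]
  obtain ⟨K2, hK2, h2⟩ := H981.PP_bounds9
  have h3 := (h2 (n + 1) (by omega)).1
  have hmu := H981.mu_pos
  have : 0 < PP (n + 1) := lt_of_lt_of_le (by positivity) h3
  positivity

/-- eventual bounds -/
theorem eventually_bounds {c : ℝ} (hc : 0 < c) (h : SubBall c) :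
    ∀ᶠ n : ℕ in atTop, mean n (width (2 * n)) ≤ 7 * X c n ∧
      mean n (area (2 * n)) ≤ 37 * X c n ^ 2 := by
  have key : ∀ᶠ n : ℕ in atTop, mean (n + 1) (width (2 * (n + 1))) ≤ 7 * X c (n + 1) ∧
      mean (n + 1) (area (2 * (n + 1))) ≤ 37 * X c (n + 1) ^ 2 := by
    filter_upwards [ratio_small h, (tendsto_add_atTop_nat 1).eventually (eventually_one_le_X c),
      eventually_ge_atTop 1] with n h1 h2 h3
    have : NeZero (2 * (n + 1)) := ⟨by omega⟩
    set r := ((Nat.card {f : ZMod (2 * (n + 1)) → ℤ × ℤ // IsLoop (2 * (n + 1)) f ∧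
          FarL _ f (X c (2 * n + 1))} : ℝ) /
        (Nat.card {f : ZMod (2 * (n + 1)) → ℤ × ℤ // IsLoop (2 * (n + 1)) f} : ℝ)) with hr
    have hr0 : 0 ≤ r := by positivity
    have hL : X c (2 * n + 1) ≤ 2 * X c (n + 1) := by
      unfold X
      have e1 : ((2 * n + 1 : ℕ) : ℝ) ≤ 2 * ((n + 1 : ℕ) : ℝ) := by push_cast; linarith
      have e2 : (1 : ℝ) < ((n + 1 : ℕ) : ℝ) := by exact_mod_cast (by omega : 1 < n + 1)
      have e3 := Real.log_pos e2
      have e4 : Real.log ((n + 1 : ℕ) : ℝ) ≤ Real.log ((2 * n + 1 : ℕ) : ℝ) := by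
        apply Real.log_le_log (by linarith)
        exact_mod_cast (by omega : n + 1 ≤ 2 * n + 1)
      have e5 : Real.log ((n + 1 : ℕ) : ℝ) ^ c ≤ Real.log ((2 * n + 1 : ℕ) : ℝ) ^ c :=
        Real.rpow_le_rpow e3.le e4 hc.le
      rw [← mul_div_assoc]
      exact div_le_div₀ (by positivity) e1 (Real.rpow_pos_of_pos e3 _) e5
    have hceil : ((⌈X c (2 * n + 1)⌉₊ : ℕ) : ℝ) ≤ 2 * X c (n + 1) + 1 := by
      have := Nat.ceil_lt_add_one (X_pos c (by omega : 2 ≤ 2 * n + 1)).le
      linarith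
    have hpos := loops_pos h3
    constructor
    · have h4 := mean_le n (width (2 * (n + 1))) (X c (2 * n + 1)) (2 * ⌈X c (2 * n + 1)⌉₊)
        (2 * (2 * (n + 1))) (fun f _ hf => near_width hf) (fun f hf => all_width hf) hpos
      rw [← hr] at h4
      have h5 : ((2 * (2 * (n + 1)) : ℕ) : ℝ) * r ≤ 1 := by
        refine le_trans ?_ h1
        apply mul_le_mul_of_nonneg_right _ hr0
        push_cast
        have : (0 : ℝ) ≤ n := Nat.cast_nonneg _
        nlinarith
      push_cast at h4 h5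
      linarith
    · have h4 := mean_le n (area (2 * (n + 1))) (X c (2 * n + 1)) ((2 * ⌈X c (2 * n + 1)⌉₊) ^ 2)
        ((2 * (2 * (n + 1))) ^ 2) (fun f h' hf => near_area h' hf) (fun f hf => all_area hf) hpos
      rw [← hr] at h4
      push_cast at h4
      have h6 : (0 : ℝ) ≤ (⌈X c (2 * n + 1)⌉₊ : ℝ) := Nat.cast_nonneg _
      nlinarith
  rw [← map_add_atTop_eq_nat 1, Filter.eventually_map]
  exact key

/-- **bounds for all `n`** -/
theorem bounds {c : ℝ} (hc : 0 < c) (h : SubBall c) :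
    ∃ K : ℝ, 0 < K ∧ ∀ n : ℕ, 2 ≤ n → mean n (width (2 * n)) ≤ K * X c n ∧
      mean n (area (2 * n)) ≤ K * X c n ^ 2 := by
  obtain ⟨n0, hn0⟩ := Filter.eventually_atTop.1 (eventually_bounds hc h)
  refine ⟨37 + ∑ n ∈ Finset.Ico 2 n0, (|mean n (width (2 * n))| / X c n +
    |mean n (area (2 * n))| / X c n ^ 2), ?_, ?_⟩
  · have : 0 ≤ ∑ n ∈ Finset.Ico 2 n0, (|mean n (width (2 * n))| / X c n +
        |mean n (area (2 * n))| / X c n ^ 2) := by
      apply Finset.sum_nonneg
      intro n hn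
      have := X_pos c (Finset.mem_Ico.1 hn).1
      positivity
    linarith
  · intro n hn
    have hX := X_pos c hn
    have h0 : ∀ k ∈ Finset.Ico 2 n0, 0 ≤ (|mean k (width (2 * k))| / X c k +
        |mean k (area (2 * k))| / X c k ^ 2) := by
      intro k hk
      have := X_pos c (Finset.mem_Ico.1 hk).1
      positivity
    by_cases hlt : n < n0
    · have h1 := Finset.single_le_sum h0 (Finset.mem_Ico.2 ⟨hn, hlt⟩)
      have h2 : 0 ≤ |mean n (width (2 * n))| / X c n := by positivity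
      have h3 : 0 ≤ |mean n (area (2 * n))| / X c n ^ 2 := by positivity
      constructor
      · rw [← div_le_iff₀ hX]
        have h4 : mean n (width (2 * n)) / X c n ≤ |mean n (width (2 * n))| / X c n :=
          div_le_div_of_nonneg_right (le_abs_self _) hX.le
        linarith
      · rw [← div_le_iff₀ (by positivity)]
        have h4 : mean n (area (2 * n)) / X c n ^ 2 ≤ |mean n (area (2 * n))| / X c n ^ 2 :=
          div_le_div_of_nonneg_right (le_abs_self _) (by positivity)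
        linarith
    · have h1 := hn0 n (by omega)
      have h2 := Finset.sum_nonneg h0
      constructor
      · refine h1.1.trans ?_
        apply mul_le_mul_of_nonneg_right _ hX.le
        linarith
      · refine h1.2.trans ?_
        apply mul_le_mul_of_nonneg_right _ (by positivity)
        linarith

end Pool.Agent.H924P
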