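import Pool.Agent.H924P.Loop
import Pool.Agent.H981R2.Fin9

set_option autoImplicit false

/-!
# Mean width and mean area of square-lattice polygons, from sub-ballisticity of walks
-/

namespace Pool.Agent.H924P

open Finset Filter Topology
open H981 (IsSAW C mu cr' PP)

/-- the walk reaches sup-distance `L` from the origin -/
def Far (n : ℕ) (ω : Fin (n + 1) → ℤ × ℤ) (L : ℝ) : Prop :=
  ∃ k, L ≤ |(((ω k).1 : ℤ) : ℝ)| ∨ L ≤ |(((ω k).2 : ℤ) : ℝ)|

/-- the loop reaches sup-distance `L` from the origin -/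
def FarL (m : ℕ) (f : ZMod m → ℤ × ℤ) (L : ℝ) : Prop :=
  ∃ k, L ≤ |(((f k).1 : ℤ) : ℝ)| ∨ L ≤ |(((f k).2 : ℤ) : ℝ)|

/-- sub-ballisticity of self-avoiding walks -/
def SubBall (c : ℝ) : Prop :=
  ∀ᶠ n : ℕ in atTop,
    (Nat.card {ω : Fin (n + 1) → ℤ × ℤ // IsSAW n ω ∧ Far n ω ((n : ℝ) / Real.log n ^ c)} : ℝ) ≤
      Real.exp (-Real.sqrt n) * C n

section
variable {m : ℕ} [NeZero m]

lemma loop_bound {f : ZMod m → ℤ × ℤ} (hf : IsLoop m f) (k : ZMod m) :
    |(f k).1| ≤ m ∧ |(f k).2| ≤ m := by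
  have h : ∀ j : ℕ, |(f (j : ZMod m)).1| ≤ j ∧ |(f (j : ZMod m)).2| ≤ j := by
    intro j
    induction j with
    | zero => simp [hf.1]
    | succ j ih =>
      have h1 := hf.2.2 (j : ZMod m)
      push_cast
      have h2 := abs_nonneg ((f ((j : ZMod m)+1)).1 - (f (j : ZMod m)).1)
      have h3 := abs_nonneg ((f ((j : ZMod m)+1)).2 - (f (j : ZMod m)).2)
      have h4 : |(f ((j : ZMod m)+1)).1 - (f (j : ZMod m)).1| ≤ 1 := by omega
      have h5 : |(f ((j : ZMod m)+1)).2 - (f (j : ZMod m)).2| ≤ 1 := by omega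
      rw [abs_le] at h4 h5 ⊢
      obtain ⟨ih1, ih2⟩ := ih
      rw [abs_le] at ih1 ih2
      refine ⟨⟨by omega, by omega⟩, ?_⟩
      rw [abs_le]
      exact ⟨by omega, by omega⟩
  have h1 := h k.val
  rw [ZMod.natCast_zmod_val] at h1
  have h2 := ZMod.val_lt k
  exact ⟨by omega, by omega⟩

lemma finite_loops (m : ℕ) [NeZero m] : {f : ZMod m → ℤ × ℤ | IsLoop m f}.Finite := by
  apply Set.Finite.subset (Set.Finite.pi' (t := fun _ : ZMod m =>
    (Set.Icc (-(m : ℤ)) m ×ˢ Set.Icc (-(m : ℤ)) m)) (fun _ =>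
      (Set.finite_Icc _ _).prod (Set.finite_Icc _ _)))
  intro f hf k
  have := loop_bound hf k
  rw [abs_le, abs_le] at this
  exact ⟨this.1, this.2⟩

instance (m : ℕ) [NeZero m] : Finite {f : ZMod m → ℤ × ℤ // IsLoop m f} :=
  (finite_loops m).to_subtype

lemma near_width {f : ZMod m → ℤ × ℤ} {L : ℝ} (hL : ¬ FarL m f L) : width m f ≤ 2 * ⌈L⌉₊ := by
  unfold FarL at hL
  push Not at hL
  have h : ∀ k, |(f k).1| ≤ (⌈L⌉₊ : ℤ) := by
    intro k
    have h1 : |(((f k).1 : ℤ) : ℝ)| ≤ (⌈L⌉₊ : ℝ) := (hL k).1.le.trans (Nat.le_ceil L)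
    exact_mod_cast h1
  apply width_le
  intro i j
  have h1 := h i
  have h2 := h j
  rw [abs_le] at h1 h2
  omega

lemma near_area {f : ZMod m → ℤ × ℤ} (hf : IsLoop m f) {L : ℝ} (hL : ¬ FarL m f L) :
    area m f ≤ (2 * ⌈L⌉₊) ^ 2 := by
  unfold FarL at hL
  push Not at hL
  apply area_le hf.2.2
  · intro k
    have h1 : |(((f k).1 : ℤ) : ℝ)| ≤ (⌈L⌉₊ : ℝ) := (hL k).1.le.trans (Nat.le_ceil L)
    exact_mod_cast h1
  · intro k
    have h1 : |(((f k).2 : ℤ) : ℝ)| ≤ (⌈L⌉₊ : ℝ) := (hL k).2.le.trans (Nat.le_ceil L)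
    exact_mod_cast h1

lemma all_width {f : ZMod m → ℤ × ℤ} (hf : IsLoop m f) : width m f ≤ 2 * m := by
  apply width_le
  intro i j
  have h1 := (loop_bound hf i).1
  have h2 := (loop_bound hf j).1
  rw [abs_le] at h1 h2
  omega

lemma all_area {f : ZMod m → ℤ × ℤ} (hf : IsLoop m f) : area m f ≤ (2 * m) ^ 2 :=
  area_le hf.2.2 (fun i => (loop_bound hf i).1) (fun i => (loop_bound hf i).2)

end

/-- the mean of a function over the loops with `2 n` steps -/
noncomputable def mean (n : ℕ) (F : (ZMod (2 * n) → ℤ × ℤ) → ℕ) : ℝ :=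
  (∑ᶠ f ∈ {f : ZMod (2 * n) → ℤ × ℤ | IsLoop (2 * n) f}, (F f : ℝ)) /
    (Nat.card {f : ZMod (2 * n) → ℤ × ℤ // IsLoop (2 * n) f} : ℝ)

lemma card_bad_le (n : ℕ) (L : ℝ) :
    Nat.card {f : ZMod (2 * (n + 1)) → ℤ × ℤ // IsLoop (2 * (n + 1)) f ∧ FarL _ f L} ≤
      Nat.card {ω : Fin (2 * n + 1 + 1) → ℤ × ℤ // IsSAW (2 * n + 1) ω ∧ Far _ ω L} := by
  have : NeZero (2 * (n + 1)) := ⟨by omega⟩
  have hfin : Finite {ω : Fin (2 * n + 1 + 1) → ℤ × ℤ // IsSAW (2 * n + 1) ω ∧ Far _ ω L} := by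
    have h1 : {ω : Fin (2 * n + 1 + 1) → ℤ × ℤ | IsSAW (2 * n + 1) ω ∧ Far _ ω L}.Finite := by
      apply Set.Finite.subset (Set.Finite.pi' (t := fun _ : Fin (2 * n + 1 + 1) =>
        (Set.Icc (-((2 * n + 1 : ℕ) : ℤ)) ((2 * n + 1 : ℕ) : ℤ) ×ˢ
          Set.Icc (-((2 * n + 1 : ℕ) : ℤ)) ((2 * n + 1 : ℕ) : ℤ))) (fun _ =>
          (Set.finite_Icc _ _).prod (Set.finite_Icc _ _)))
      rintro ω ⟨⟨h0, hs, -⟩, -⟩
      have key : ∀ i : Fin (2 * n + 1 + 1), |(ω i).1| ≤ (i : ℕ) ∧ |(ω i).2| ≤ (i : ℕ) := by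
        intro i
        induction i using Fin.induction with
        | zero => simp [h0]
        | succ i ih =>
          have h1 := hs i
          have h2 := abs_nonneg ((ω i.succ).1 - (ω i.castSucc).1)
          have h3 := abs_nonneg ((ω i.succ).2 - (ω i.castSucc).2)
          have h4 : |(ω i.succ).1 - (ω i.castSucc).1| ≤ 1 := by omega
          have h5 : |(ω i.succ).2 - (ω i.castSucc).2| ≤ 1 := by omega
          obtain ⟨ih1, ih2⟩ := ih
          rw [abs_le] at h4 h5 ih1 ih2 ⊢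
          simp only [Fin.val_castSucc] at ih1 ih2
          simp only [Fin.val_succ]
          refine ⟨⟨by omega, by omega⟩, ?_⟩
          rw [abs_le]
          exact ⟨by omega, by omega⟩
      intro i
      have h1 := key i
      have h2 := i.2
      rw [abs_le, abs_le] at h1
      refine ⟨⟨by omega, by omega⟩, ⟨by omega, by omega⟩⟩
    exact h1.to_subtype
  have hval : ∀ k : ℕ, k < 2 * (n + 1) → ((k : ZMod (2 * (n + 1)))).val = k := fun k hk => by
    rw [ZMod.val_natCast, Nat.mod_eq_of_lt hk]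
  refine Nat.card_le_card_of_injective
    (fun f => ⟨fun i => f.1 ((i : ℕ) : ZMod (2 * (n + 1))), ?_, ?_⟩) ?_
  · obtain ⟨h0, hinj, hadj⟩ := f.2.1
    refine ⟨by simp [h0]; rfl, ?_, ?_⟩
    · intro i
      have := hadj ((i : ℕ) : ZMod (2 * (n + 1)))
      simpa using this
    · intro i j hij
      have h3 := hinj hij
      have h4 := congrArg ZMod.val h3
      rw [hval _ (by omega), hval _ (by omega)] at h4
      exact Fin.ext h4
  · obtain ⟨k, hk⟩ := f.2.2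
    refine ⟨⟨k.val, by have := ZMod.val_lt k; omega⟩, ?_⟩
    simp only [ZMod.natCast_zmod_val]
    exact hk
  · intro f g hfg
    have h1 := congrArg Subtype.val hfg
    apply Subtype.ext
    funext k
    have h2 := congrFun h1 ⟨k.val, by have := ZMod.val_lt k; omega⟩
    simp only [ZMod.natCast_zmod_val] at h2
    exact h2

/-- the mean is at most the bound on good loops plus the contribution of bad loops -/
lemma mean_le (n : ℕ) (F : (ZMod (2 * (n + 1)) → ℤ × ℤ) → ℕ) (L : ℝ) (g B : ℕ)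
    (hg : ∀ f, IsLoop _ f → ¬ FarL _ f L → F f ≤ g) (hB : ∀ f, IsLoop _ f → F f ≤ B)
    (hpos : 0 < (Nat.card {f : ZMod (2 * (n + 1)) → ℤ × ℤ // IsLoop (2 * (n + 1)) f} : ℝ)) :
    mean (n + 1) F ≤ g + B *
      ((Nat.card {f : ZMod (2 * (n + 1)) → ℤ × ℤ // IsLoop (2 * (n + 1)) f ∧ FarL _ f L} : ℝ) /
        (Nat.card {f : ZMod (2 * (n + 1)) → ℤ × ℤ // IsLoop (2 * (n + 1)) f} : ℝ)) := by
  classical
  have : NeZero (2 * (n + 1)) := ⟨by omega⟩
  have hfin := finite_loops (2 * (n + 1))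
  set S := hfin.toFinset with hS
  have hmem : ∀ f, f ∈ S ↔ IsLoop (2 * (n + 1)) f := fun f => by
    rw [hS, Set.Finite.mem_toFinset]; rfl
  have hcard : Nat.card {f : ZMod (2 * (n + 1)) → ℤ × ℤ // IsLoop (2 * (n + 1)) f} = #S := by
    exact Nat.subtype_card S hmem
  have hcard2 : Nat.card {f : ZMod (2 * (n + 1)) → ℤ × ℤ //
      IsLoop (2 * (n + 1)) f ∧ FarL _ f L} = #(S.filter (fun f => FarL _ f L)) := by
    apply Nat.subtype_card
    intro f
    rw [Finset.mem_filter, hmem]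
  unfold mean
  rw [finsum_mem_eq_finite_toFinset_sum _ hfin, hcard, hcard2]
  rw [hcard] at hpos
  rw [div_le_iff₀ hpos]
  have h1 : ∀ f ∈ S, (F f : ℝ) ≤ g + B * (if FarL _ f L then 1 else 0) := by
    intro f hf
    rw [hmem] at hf
    by_cases h : FarL _ f L
    · rw [if_pos h]
      have h2 : (F f : ℝ) ≤ B := by exact_mod_cast hB f hf
      have h3 : (0 : ℝ) ≤ g := Nat.cast_nonneg _
      linarith
    · rw [if_neg h]
      have h2 : (F f : ℝ) ≤ g := by exact_mod_cast hg f hf h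
      linarith
  calc ∑ f ∈ S, (F f : ℝ) ≤ ∑ f ∈ S, ((g : ℝ) + B * (if FarL _ f L then 1 else 0)) :=
        Finset.sum_le_sum h1
    _ = g * #S + B * #(S.filter (fun f => FarL _ f L)) := by
        rw [Finset.sum_add_distrib, Finset.sum_const, nsmul_eq_mul, ← Finset.mul_sum,
          Finset.sum_boole]
        ring
    _ = _ := by
        field_simp

end Pool.Agent.H924P
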