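import Pool.Agent.H924P.Asym
import Pool.Agent.H976R2.SB.Walks

set_option autoImplicit false

/-!
# Width and area of polygons: the unconditional bounds
-/

namespace Pool.Agent.H924P

open Finset Filter Topology
open H981 (C)
open Pool.Agent.H976R2

/-- a plane walk as a walk with values in `Fin 2 → ℤ` -/
def toF (n : ℕ) (ω : Fin (n + 1) → ℤ × ℤ) : Fin (n + 1) → Fin 2 → ℤ :=
  fun i => ![(ω i).1, (ω i).2]

lemma toF_inj (n : ℕ) : Function.Injective (toF n) := by
  intro ω ω' h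
  funext i
  have h1 := congrFun (congrFun h i) 0
  have h2 := congrFun (congrFun h i) 1
  simp only [toF, Matrix.cons_val_zero, Matrix.cons_val_one] at h1 h2
  exact Prod.ext h1 h2

lemma toF_surj (n : ℕ) (ω : Fin (n + 1) → Fin 2 → ℤ) : ∃ ω', toF n ω' = ω := by
  refine ⟨fun i => (ω i 0, ω i 1), ?_⟩
  funext i k
  fin_cases k <;> simp [toF]

lemma isSAW_iff (n : ℕ) (ω : Fin (n + 1) → ℤ × ℤ) : H981.IsSAW n ω ↔ SB.IsSAW 2 n (toF n ω) := by
  unfold H981.IsSAW SB.IsSAW
  refine and_congr ?_ (and_congr ?_ ?_)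
  · constructor
    · intro h
      funext k
      fin_cases k <;> simp [toF, h]
    · intro h
      have h1 := congrFun h 0
      have h2 := congrFun h 1
      simp only [toF, Matrix.cons_val_zero, Matrix.cons_val_one, Pi.zero_apply] at h1 h2
      exact Prod.ext h1 h2
  · refine forall_congr' fun i => ?_
    simp [toF, Fin.sum_univ_two]
  · constructor
    · intro h i j hij
      apply h
      have h1 := congrFun hij 0
      have h2 := congrFun hij 1
      simp only [toF, Matrix.cons_val_zero, Matrix.cons_val_one] at h1 h2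
      exact Prod.ext h1 h2
    · intro h i j hij
      apply h
      simp [toF, hij]

lemma card_eq (n : ℕ) (P : (Fin (n + 1) → Fin 2 → ℤ) → Prop) :
    Nat.card {ω : Fin (n + 1) → ℤ × ℤ // H981.IsSAW n ω ∧ P (toF n ω)} =
      {ω | SB.IsSAW 2 n ω ∧ P ω}.ncard := by
  have h : {ω | SB.IsSAW 2 n ω ∧ P ω} = toF n '' {ω | H981.IsSAW n ω ∧ P (toF n ω)} := by
    ext ω
    constructor
    · rintro ⟨h1, h2⟩
      obtain ⟨ω', rfl⟩ := toF_surj n ω
      exact ⟨ω', ⟨(isSAW_iff n ω').2 h1, h2⟩, rfl⟩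
    · rintro ⟨ω', ⟨h1, h2⟩, rfl⟩
      exact ⟨(isSAW_iff n ω').1 h1, h2⟩
  rw [h, Set.ncard_image_of_injective _ (toF_inj n)]
  rfl

/-- plane self-avoiding walks are sub-ballistic with a logarithmic rate -/
theorem subBall : ∃ c : ℝ, 0 < c ∧ SubBall c := by
  obtain ⟨c, hc, h⟩ := SB.walks_far 2 le_rfl
  refine ⟨c, hc, ?_⟩
  obtain ⟨n0, hn0⟩ := h (1 / 4) (by norm_num)
  filter_upwards [eventually_ge_atTop n0, eventually_ge_atTop 1] with n hn hn1
  have h1 := hn0 n hn
  have hC : (C n : ℝ) = ({ω | SB.IsSAW 2 n ω}.ncard : ℝ) := by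
    have := card_eq n (fun _ => True)
    simp only [and_true] at this
    unfold C
    rw [this]
  rw [hC]
  have h2 : Nat.card {ω : Fin (n + 1) → ℤ × ℤ // H981.IsSAW n ω ∧ Far n ω ((n : ℝ) / Real.log n ^ c)} =
      {ω | SB.IsSAW 2 n ω ∧ ∃ i k, (n : ℝ) / (Real.log n) ^ c ≤ |(ω i k : ℝ)|}.ncard := by
    rw [← card_eq n]
    congr! 4 with ω
    unfold Far
    refine exists_congr fun k => ?_
    simp [toF, Fin.exists_fin_two]
  rw [h2]
  refine h1.trans ?_
  apply mul_le_mul_of_nonneg_right _ (by positivity)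
  apply Real.exp_le_exp.2
  rw [neg_le_neg_iff, Real.sqrt_eq_rpow]
  exact Real.rpow_le_rpow_of_exponent_le (by exact_mod_cast hn1) (by norm_num)

/-- the unconditional bounds -/
theorem main : ∃ c K : ℝ, 0 < c ∧ 0 < K ∧ ∀ n : ℕ, 2 ≤ n →
    mean n (width (2 * n)) ≤ K * ((n : ℝ) / Real.log n ^ c) ∧
    mean n (area (2 * n)) ≤ K * ((n : ℝ) / Real.log n ^ c) ^ 2 := by
  obtain ⟨c, hc, h⟩ := subBall
  obtain ⟨K, hK, h2⟩ := bounds hc h
  exact ⟨c, K, hc, hK, fun n hn => h2 n hn⟩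

end Pool.Agent.H924P
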