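import Pool.Agent.H924P.Asym2
import Pool.Agent.H924P.Final
import Pool.Agent.H979R2.P2.Main

set_option autoImplicit false

/-!
# Width and area of polygons: almost power law
-/

namespace Pool.Agent.H924P.G

open Pool.Agent.H924P Finset Filter Topology
open H981 (C)

/-- the scale `n^{1 - c / log log n}` -/
noncomputable def Y (c : ℝ) (n : ℕ) : ℝ := (n : ℝ) ^ (1 - c / Real.log (Real.log n))

lemma Y_pos (c : ℝ) (n : ℕ) (hn : 16 ≤ n) : 0 < Y c n :=
  Real.rpow_pos_of_pos (by exact_mod_cast (by omega : 0 < n)) _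

lemma exp_one_le_log {n : ℕ} (hn : 16 ≤ n) : Real.exp 1 ≤ Real.log (n : ℝ) := by
  have hn16 : (16 : ℝ) ≤ n := by exact_mod_cast hn
  have h2 := Real.log_two_gt_d9
  have h3 : Real.log 16 = 4 * Real.log 2 := by
    rw [show (16 : ℝ) = 2 ^ 4 by norm_num, Real.log_pow]
    norm_num
  have h5 := Real.exp_one_lt_d9
  have h6 := Real.log_le_log (by norm_num : (0 : ℝ) < 16) hn16
  linarith

lemma one_le_loglog {n : ℕ} (hn : 16 ≤ n) : 1 ≤ Real.log (Real.log (n : ℝ)) := by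
  calc (1 : ℝ) = Real.log (Real.exp 1) := (Real.log_exp 1).symm
    _ ≤ _ := Real.log_le_log (Real.exp_pos 1) (exp_one_le_log hn)

lemma eventually_one_le_Y {c : ℝ} (hc : 0 < c) : ∀ᶠ n : ℕ in atTop, 1 ≤ Y c n := by
  have h : Tendsto (fun n : ℕ => Real.log (Real.log (n : ℝ))) atTop atTop :=
    Real.tendsto_log_atTop.comp (Real.tendsto_log_atTop.comp tendsto_natCast_atTop_atTop)
  filter_upwards [h.eventually (eventually_ge_atTop c), eventually_ge_atTop 16] with n h1 h2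
  unfold Y
  have h3 := one_le_loglog h2
  apply Real.one_le_rpow
  · exact_mod_cast (by omega : 1 ≤ n)
  · rw [sub_nonneg, div_le_one (by linarith)]
    exact h1

lemma eventually_dbl {c : ℝ} (hc : 0 < c) : ∀ᶠ n : ℕ in atTop, Y c (2 * n + 1) ≤ 2 * Y c (n + 1) := by
  filter_upwards [eventually_ge_atTop 16] with n hn
  have hM : 16 ≤ n + 1 := by omega
  have hN : 16 ≤ 2 * n + 1 := by omega
  have key : Real.log ((n + 1 : ℕ) : ℝ) / Real.log (Real.log ((n + 1 : ℕ) : ℝ)) ≤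
      Real.log ((2 * n + 1 : ℕ) : ℝ) / Real.log (Real.log ((2 * n + 1 : ℕ) : ℝ)) := by
    have hle : Real.log ((n + 1 : ℕ) : ℝ) ≤ Real.log ((2 * n + 1 : ℕ) : ℝ) := by
      apply Real.log_le_log (by positivity)
      exact_mod_cast (by omega : n + 1 ≤ 2 * n + 1)
    have h1 := Real.log_div_self_antitoneOn (exp_one_le_log hM) (exp_one_le_log hN) hle
    have a1 := one_le_loglog hM
    have a2 := one_le_loglog hN
    have b1 := exp_one_le_log hM
    have b2 := exp_one_le_log hN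
    have e := Real.exp_pos 1
    simp only at h1
    rw [div_le_div_iff₀ (by linarith) (by linarith)] at h1 ⊢
    linarith
  have hMpos : (0 : ℝ) < ((n + 1 : ℕ) : ℝ) := by positivity
  have hNpos : (0 : ℝ) < ((2 * n + 1 : ℕ) : ℝ) := by positivity
  have e1 : Y c (2 * n + 1) = ((2 * n + 1 : ℕ) : ℝ) *
      Real.exp (-(c * (Real.log ((2 * n + 1 : ℕ) : ℝ) / Real.log (Real.log ((2 * n + 1 : ℕ) : ℝ))))) := by
    unfold Y
    rw [sub_eq_add_neg, Real.rpow_add hNpos, Real.rpow_one, Real.rpow_def_of_pos hNpos]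
    congr 2
    ring
  have e2 : Y c (n + 1) = ((n + 1 : ℕ) : ℝ) *
      Real.exp (-(c * (Real.log ((n + 1 : ℕ) : ℝ) / Real.log (Real.log ((n + 1 : ℕ) : ℝ))))) := by
    unfold Y
    rw [sub_eq_add_neg, Real.rpow_add hMpos, Real.rpow_one, Real.rpow_def_of_pos hMpos]
    congr 2
    ring
  rw [e1, e2, ← mul_assoc]
  apply mul_le_mul
  · push_cast; linarith
  · apply Real.exp_le_exp.2
    have := mul_le_mul_of_nonneg_left key hc.le
    linarith
  · positivity
  · positivity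

lemma card_eq2 (n : ℕ) (P : (Fin (n + 1) → Fin 2 → ℤ) → Prop) :
    Nat.card {ω : Fin (n + 1) → ℤ × ℤ // H981.IsSAW n ω ∧ P (toF n ω)} =
      Nat.card {w : Fin (n + 1) → Fin 2 → ℤ // Pool.Agent.H725R2.SB.IsSAW 2 n w ∧ P w} := by
  rw [card_eq n P]
  rfl

lemma prob_eq (n : ℕ) (P : (Fin (n + 1) → Fin 2 → ℤ) → Prop) :
    (Nat.card {ω : Fin (n + 1) → ℤ × ℤ // H981.IsSAW n ω ∧ P (toF n ω)} : ℝ) =
      Pool.Agent.H979R2.P2.prob n P * C n := by
  have hC : (C n : ℝ) = (Nat.card {w : Fin (n + 1) → Fin 2 → ℤ //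
      Pool.Agent.H725R2.SB.IsSAW 2 n w} : ℝ) := by
    have := card_eq2 n (fun _ => True)
    simp only [and_true] at this
    unfold C
    rw [this]
  have hpos : (0 : ℝ) < Pool.Agent.H725R2.SB.cN 2 n := by
    exact_mod_cast Pool.Agent.H979R2.P2.cN_pos n
  have hpos' : (0 : ℝ) < (Nat.card {w : Fin (n + 1) → Fin 2 → ℤ //
      Pool.Agent.H725R2.SB.IsSAW 2 n w} : ℝ) := hpos
  rw [hC, card_eq2]
  unfold Pool.Agent.H979R2.P2.prob
  rw [div_mul_cancel₀ _ hpos'.ne']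

theorem subY : ∃ c : ℝ, 0 < c ∧ SubY (Y c) := by
  obtain ⟨c, K, hc, hK, h⟩ := Pool.Agent.H979R2.P2.plain_typ Pool.Agent.H979R2.P2.fin
  refine ⟨c, hc, ?_⟩
  have hsmall : ∀ᶠ n : ℕ in atTop, K * Real.exp (-(n : ℝ) ^ (4 / 5 : ℝ)) ≤ Real.exp (-Real.sqrt n) := by
    have h1 : ∀ᶠ n : ℕ in atTop, Real.log K ≤ Real.sqrt n := by
      have : Tendsto (fun n : ℕ => Real.sqrt (n : ℝ)) atTop atTop :=
        Real.tendsto_sqrt_atTop.comp tendsto_natCast_atTop_atTop
      exact this.eventually (eventually_ge_atTop _)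
    have h2 : ∀ᶠ n : ℕ in atTop, (2 : ℝ) ≤ (n : ℝ) ^ (3 / 10 : ℝ) := by
      have : Tendsto (fun n : ℕ => (n : ℝ) ^ (3 / 10 : ℝ)) atTop atTop :=
        (tendsto_rpow_atTop (by norm_num)).comp tendsto_natCast_atTop_atTop
      exact this.eventually (eventually_ge_atTop _)
    filter_upwards [h1, h2, eventually_ge_atTop 1] with n h1 h2 h3
    have hn : (0 : ℝ) < n := by exact_mod_cast (by omega : 0 < n)
    have e : (n : ℝ) ^ (4 / 5 : ℝ) = Real.sqrt n * (n : ℝ) ^ (3 / 10 : ℝ) := by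
      rw [Real.sqrt_eq_rpow, ← Real.rpow_add hn]
      norm_num
    have h4 : 2 * Real.sqrt n ≤ (n : ℝ) ^ (4 / 5 : ℝ) := by
      rw [e]
      have := Real.sqrt_nonneg (n : ℝ)
      nlinarith
    calc K * Real.exp (-(n : ℝ) ^ (4 / 5 : ℝ)) = Real.exp (Real.log K + -(n : ℝ) ^ (4 / 5 : ℝ)) := by
          rw [Real.exp_add, Real.exp_log hK]
      _ ≤ _ := Real.exp_le_exp.2 (by linarith)
  filter_upwards [hsmall, eventually_ge_atTop 16] with n h1 h2
  have h3 := h K le_rfl n h2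
  have hC : (0 : ℝ) ≤ C n := Nat.cast_nonneg _
  have h4 : (Nat.card {ω : Fin (n + 1) → ℤ × ℤ // H981.IsSAW n ω ∧ Far n ω (Y c n)} : ℝ) ≤
      Pool.Agent.H979R2.P2.prob n (fun w => (n : ℝ) ^ (1 - c / Real.log (Real.log n)) ≤
        Pool.Agent.H979R2.P2.diam w) * C n := by
    have h5 : (Nat.card {ω : Fin (n + 1) → ℤ × ℤ // H981.IsSAW n ω ∧ Far n ω (Y c n)} : ℝ) =
        Pool.Agent.H979R2.P2.prob n (fun w => ∃ i k, Y c n ≤ |(w i k : ℝ)|) * C n := by
      rw [← prob_eq]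
      congr! 5 with ω
      unfold Far
      refine exists_congr fun k => ?_
      simp [toF, Fin.exists_fin_two]
    rw [h5]
    apply mul_le_mul_of_nonneg_right _ hC
    apply Pool.Agent.H979R2.P2.prob_mono
    rintro w hw ⟨i, k, hik⟩
    refine le_trans hik (le_trans ?_ (Pool.Agent.H979R2.P2.le_diam w i 0))
    have h0 : w 0 = 0 := hw.1
    unfold Pool.Agent.H979R2.P2.dist2
    rw [h0]
    apply Real.abs_le_sqrt
    simp only [Pi.zero_apply, Int.cast_zero, sub_zero]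
    exact Finset.single_le_sum (f := fun k => ((w i k : ℤ) : ℝ) ^ 2) (fun k _ => sq_nonneg _)
      (Finset.mem_univ k)
  exact h4.trans (mul_le_mul_of_nonneg_right (h3.trans h1) hC)

/-- the unconditional bounds -/
theorem main : ∃ c K : ℝ, 0 < c ∧ 0 < K ∧ ∀ n : ℕ, 16 ≤ n →
    mean n (width (2 * n)) ≤ K * Y c n ∧ mean n (area (2 * n)) ≤ K * Y c n ^ 2 := by
  obtain ⟨c, hc, h⟩ := subY
  obtain ⟨K, hK, h2⟩ := bounds (Y_pos c) (eventually_one_le_Y hc) (eventually_dbl hc) h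
  exact ⟨c, K, hc, hK, fun n hn => h2 n hn⟩

end Pool.Agent.H924P.G
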