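import Mathlib

set_option autoImplicit false

/-!
# Closed loops on the square lattice: width, height, enclosed area
-/

namespace Pool.Agent.H924P

open Finset

/-- rooted oriented self-avoiding closed loops with `m` steps through the origin -/
def IsLoop (m : ℕ) (f : ZMod m → ℤ × ℤ) : Prop :=
  f 0 = 0 ∧ Function.Injective f ∧
    ∀ i : ZMod m, |(f (i+1)).1 - (f i).1| + |(f (i+1)).2 - (f i).2| = 1

/-- the horizontal extent of a loop -/
noncomputable def width (m : ℕ) (f : ZMod m → ℤ × ℤ) : ℕ := sSup {w : ℕ | ∃ i j, w = ((f i).1 - (f j).1).natAbs}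

/-- the vertical extent of a loop -/
noncomputable def height (m : ℕ) (f : ZMod m → ℤ × ℤ) : ℕ := sSup {w : ℕ | ∃ i j, w = ((f i).2 - (f j).2).natAbs}

/-- the edge from `f k` to `f (k+1)` is horizontal, joins the columns `a` and `a + 1`, and has
height larger than `b` -/
def Above (m : ℕ) (f : ZMod m → ℤ × ℤ) (a b : ℤ) (k : ZMod m) : Prop :=
  (((f k).1 = a ∧ (f (k + 1)).1 = a + 1) ∨ ((f k).1 = a + 1 ∧ (f (k + 1)).1 = a)) ∧ b < (f k).2

/-- the unit cell `[a, a+1] × [b, b+1]` is enclosed by the loop: the number of edges above it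
is odd -/
def Encl (m : ℕ) (f : ZMod m → ℤ × ℤ) (c : ℤ × ℤ) : Prop :=
  Odd (Nat.card {k : ZMod m // Above m f c.1 c.2 k})

/-- the number of unit cells enclosed by the loop -/
noncomputable def area (m : ℕ) (f : ZMod m → ℤ × ℤ) : ℕ := Nat.card {c : ℤ × ℤ // Encl m f c}

section

variable {m : ℕ} [NeZero m] {f : ZMod m → ℤ × ℤ}

lemma width_le {L : ℕ} (h : ∀ i j, ((f i).1 - (f j).1).natAbs ≤ L) : width m f ≤ L := by
  unfold width
  refine csSup_le ⟨_, 0, 0, rfl⟩ ?_
  rintro w ⟨i, j, rfl⟩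
  exact h i j

lemma height_le {L : ℕ} (h : ∀ i j, ((f i).2 - (f j).2).natAbs ≤ L) : height m f ≤ L := by
  unfold height
  refine csSup_le ⟨_, 0, 0, rfl⟩ ?_
  rintro w ⟨i, j, rfl⟩
  exact h i j

/-- the number of edges between two columns is even -/
lemma even_cross (f : ZMod m → ℤ × ℤ)
    (hs : ∀ i : ZMod m, |(f (i+1)).1 - (f i).1| + |(f (i+1)).2 - (f i).2| = 1) (a : ℤ) :
    Even (Nat.card {k : ZMod m // (((f k).1 = a ∧ (f (k + 1)).1 = a + 1) ∨
      ((f k).1 = a + 1 ∧ (f (k + 1)).1 = a))}) := by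
  classical
  rw [Nat.card_eq_fintype_card, Fintype.card_subtype, ← ZMod.natCast_eq_zero_iff_even,
    Finset.card_filter, Nat.cast_sum]
  let φ : ZMod m → ZMod 2 := fun k => if (f k).1 ≤ a then 1 else 0
  have h1 : ∀ k, (((if (((f k).1 = a ∧ (f (k + 1)).1 = a + 1) ∨
      ((f k).1 = a + 1 ∧ (f (k + 1)).1 = a)) then 1 else 0 : ℕ)) : ZMod 2) = φ k + φ (k + 1) := by
    intro k
    have h2 := hs k
    have h3 : |(f (k+1)).1 - (f k).1| ≤ 1 := by
      have := abs_nonneg ((f (k+1)).2 - (f k).2)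
      omega
    rw [abs_le] at h3
    simp only [φ]
    by_cases h4 : (f k).1 ≤ a <;> by_cases h5 : (f (k + 1)).1 ≤ a
    · rw [if_neg (by omega), if_pos h4, if_pos h5]
      decide
    · rw [if_pos (by left; omega), if_pos h4, if_neg h5]
      decide
    · rw [if_pos (by right; omega), if_neg h4, if_pos h5]
      decide
    · rw [if_neg (by omega), if_neg h4, if_neg h5]
      decide
  rw [Finset.sum_congr rfl fun k _ => h1 k, Finset.sum_add_distrib]
  have h2 : ∑ k, φ (k + 1) = ∑ k, φ k := Equiv.sum_comp (Equiv.addRight (1 : ZMod m)) φ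
  rw [h2]
  exact CharTwo.add_self_eq_zero _

/-- enclosed cells lie in the bounding box -/
lemma encl_box (hs : ∀ i : ZMod m, |(f (i+1)).1 - (f i).1| + |(f (i+1)).2 - (f i).2| = 1)
    {L : ℤ} (hx : ∀ i, |(f i).1| ≤ L) (hy : ∀ i, |(f i).2| ≤ L) {c : ℤ × ℤ} (hc : Encl m f c) :
    c.1 ∈ Set.Ico (-L) L ∧ c.2 ∈ Set.Ico (-L) L := by
  classical
  unfold Encl at hc
  have hne : ∃ k, Above m f c.1 c.2 k := by
    by_contra hcon
    push Not at hcon
    have : IsEmpty {k : ZMod m // Above m f c.1 c.2 k} := ⟨fun k => hcon k.1 k.2⟩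
    rw [Nat.card_of_isEmpty] at hc
    exact absurd hc (by decide)
  obtain ⟨k, hk1, hk2⟩ := hne
  have h1 := hx k
  have h2 := hx (k + 1)
  have h3 := hy k
  rw [abs_le] at h1 h2 h3
  refine ⟨⟨by omega, by omega⟩, ?_, by omega⟩
  by_contra hlt
  push Not at hlt
  have h4 : Nat.card {k : ZMod m // Above m f c.1 c.2 k} =
      Nat.card {k : ZMod m // (((f k).1 = c.1 ∧ (f (k + 1)).1 = c.1 + 1) ∨
      ((f k).1 = c.1 + 1 ∧ (f (k + 1)).1 = c.1))} := by
    apply Nat.card_congr
    apply Equiv.subtypeEquivRight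
    intro k
    unfold Above
    have h5 := hy k
    rw [abs_le] at h5
    constructor
    · rintro ⟨h, _⟩
      exact h
    · intro h
      exact ⟨h, by omega⟩
  rw [h4] at hc
  exact (Nat.not_odd_iff_even.2 (even_cross f hs c.1)) hc

/-- the enclosed area is at most the area of a bounding box -/
lemma area_le (hs : ∀ i : ZMod m, |(f (i+1)).1 - (f i).1| + |(f (i+1)).2 - (f i).2| = 1)
    {L : ℕ} (hx : ∀ i, |(f i).1| ≤ L) (hy : ∀ i, |(f i).2| ≤ L) : area m f ≤ (2 * L) ^ 2 := by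
  classical
  let S : Finset (ℤ × ℤ) := Finset.Ico (-(L : ℤ)) L ×ˢ Finset.Ico (-(L : ℤ)) L
  have hS : ∀ c : {c : ℤ × ℤ // Encl m f c}, c.1 ∈ S := by
    intro c
    have := encl_box hs hx hy c.2
    rw [Finset.mem_product, Finset.mem_Ico, Finset.mem_Ico]
    exact this
  have h1 : Nat.card {c : ℤ × ℤ // Encl m f c} ≤ Nat.card S :=
    Nat.card_le_card_of_injective (fun c => (⟨c.1, hS c⟩ : S)) (by
      intro c d h
      have := congrArg Subtype.val h
      exact Subtype.ext this)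
  unfold area
  refine h1.trans (le_of_eq ?_)
  rw [Nat.card_eq_fintype_card, Fintype.card_coe, Finset.card_product, Int.card_Ico, sq]
  have : ((L : ℤ) - -(L : ℤ)).toNat = 2 * L := by omega
  rw [this]

end

end Pool.Agent.H924P
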